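import Pool.Agent.J4H61.RM.Ideal

/-!
# Cyclic generators of the quotients of a free group algebra by rank-maximal subgroups

Let `F` be a free group of finite rank, `K` a finite field, `H` a finitely generated subgroup of `F` such that no
subgroup of `F` which properly contains `H` has rank at most the rank of `H`, and `J_H` the right ideal of `K[F]`
generated by the elements `h - 1`, `h ∈ H`. Then the cyclic generators of the right module `K[F]/J_H` are exactly the
images of the units of `K[F]`.

The proof first shows that for every nonzero finite dimensional subspace `E` of the augmentation submodule `Q` of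
`K[F/H]` the number `dim E - ∑ₓ dim {e ∈ E : x e ∈ E}` (the sum is over the basis of `F`) is at least one
(`Pool.Agent.J4H61.RM.posOn_aug`). To this end the union `U` of the minimizers of this number in `Q` is shown to be a
coideal of the coalgebra `K[F/H]`, that is, spanned by the differences of the elements of `F/H` which are congruent
modulo `U`; this gives a subgroup `H' ≥ H` with `rk H' ≤ rk H`, hence `H' = H` and `U = 0`. Then `Q` has no torsion,
and a grading argument by homomorphisms of subgroups `L > H` onto infinite cyclic groups which kill `H` shows that all
solutions `m` of `b m = 1 H` in `K[F/H]` are multiples of elements of `F/H`.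
-/

set_option autoImplicit false

namespace Pool.Agent.Results.MP_eee65c_al.RankMaximalSubgroups

open Pool.Agent.J4H61.RM

/-- The subgroup `H` has a free basis with `n` elements, that is, `H` has the rank `n`. -/
def HasRank {G : Type*} [Group G] (H : Subgroup G) (n : ℕ) : Prop :=
  Nonempty (FreeGroupBasis (Fin n) H)

/-- The subgroup `H` has a finite rank `n`, and each subgroup of finite rank which properly contains `H` has a rank
larger than `n`. -/
def RankMaximal {G : Type*} [Group G] (H : Subgroup G) : Prop :=
  ∃ n, HasRank H n ∧ ∀ (H' : Subgroup G) (n' : ℕ), H < H' → HasRank H' n' → n < n'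

/-- Let `X` be a finite set, `F` the free group on `X`, `K` a finite field and `H` a rank-maximal subgroup of `F`. An
element `m` of the right `K[F]`-module `K[F]/J_H` generates this module if and only if it is the image of a unit of
`K[F]`. -/
theorem result : ∀ (X K : Type*) [Finite X] [Field K] [Finite K] (H : Subgroup (FreeGroup X)), RankMaximal H →
    ∀ m : MonoidAlgebra K (FreeGroup X) ⧸ J K H,
      Submodule.span (MonoidAlgebra K (FreeGroup X))ᵐᵒᵖ {m} = ⊤ ↔
        ∃ u : (MonoidAlgebra K (FreeGroup X))ˣ, Submodule.Quotient.mk (u : MonoidAlgebra K (FreeGroup X)) = m := by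
  classical
  intro X K _ _ _ H hH m
  have : Fintype X := Fintype.ofFinite X
  obtain ⟨n, ⟨b⟩, hmax⟩ := hH
  set S : Finset (FreeGroup X) := Finset.univ.image fun i => (b i : FreeGroup X) with hS
  have hSc : S.card ≤ n := Finset.card_image_le.trans (by rw [Finset.card_univ, Fintype.card_fin])
  refine cyclic_iff H S ?_ ?_ m
  · rw [hS, Finset.coe_image, Finset.coe_univ, Set.image_univ]
    have h1 : Set.range (fun i => (b i : FreeGroup X)) = H.subtype '' (Set.range b) := by
      rw [← Set.range_comp]
      rfl
    rw [h1, ← MonoidHom.map_closure, closure_basis, ← MonoidHom.range_eq_map,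
      Subgroup.range_subtype]
  · intro S' hS' hle
    by_contra hne
    obtain ⟨n', hn', hb'⟩ := exists_basis_card_le' S'
    have := hmax _ n' (lt_of_le_of_ne hle (Ne.symm hne)) hb'
    omega

end Pool.Agent.Results.MP_eee65c_al.RankMaximalSubgroups
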